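import Pool.Statements.S01394
import Pool.Agent.H71.RD.Ind

set_option autoImplicit false
open Pool Pool.MP_4c097f_al

namespace Pool.Agent.S01394

/-- The negation of the preceding statement: For a char-0 ordinary differential field K and a differentially finitely generated differential K-domain A, f a non-unit and P a minimal prime over [f]: n differentially independent elements in A give at least n−1 in A/P. -/
theorem result :
    ¬ (∀ (K : Type) [Field K] [CharZero K] [Differential K]
      (A : Type) [CommRing A] [IsDomain A] [Algebra K A] [Differential A],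
      (∀ k : K, (Differential.deriv : Derivation ℤ A A) (algebraMap K A k)
          = algebraMap K A ((Differential.deriv : Derivation ℤ K K) k)) →
      (∃ S : Finset A, Algebra.adjoin K
          (Set.range (fun p : S × ℕ =>
            (⇑(Differential.deriv : Derivation ℤ A A))^[p.2] (p.1 : A))) = ⊤) →
      ∀ (f : A), ¬ IsUnit f →
      ∀ (P : Ideal A),
        P ∈ (Ideal.span (Set.range (fun n : ℕ =>
              (⇑(Differential.deriv : Derivation ℤ A A))^[n] f))).minimalPrimes →
      ∀ n : ℕ,
        (∃ S : Finset A, S.card = n ∧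
          AlgebraicIndependent K (fun p : S × ℕ =>
            (⇑(Differential.deriv : Derivation ℤ A A))^[p.2] (p.1 : A))) →
        (∃ T : Finset A, n ≤ T.card + 1 ∧
          AlgebraicIndependent K (fun p : T × ℕ =>
            Ideal.Quotient.mk P
              ((⇑(Differential.deriv : Derivation ℤ A A))^[p.2] (p.1 : A))))) := by
  classical
  intro h
  obtain ⟨S, hS, hind⟩ := Pool.Agent.H71.RD.indep
  obtain ⟨T, hT, hT'⟩ := h ℚ Pool.Agent.H71.RD.A
    (fun k => by
      have h1 : (Differential.deriv : Derivation ℤ Pool.Agent.H71.RD.A Pool.Agent.H71.RD.A)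
          (algebraMap ℚ Pool.Agent.H71.RD.A k) = 0 := by
        apply Subtype.ext
        change Pool.Agent.H71.RD.D (algebraMap ℚ Pool.Agent.H71.RD.R k) = 0
        exact Pool.Agent.H71.RD.D.map_algebraMap k
      have h2 : (Differential.deriv : Derivation ℤ ℚ ℚ) k = 0 := rfl
      rw [h1, h2, map_zero])
    ⟨Pool.Agent.H71.RD.S0, Pool.Agent.H71.RD.adjoin_top⟩
    Pool.Agent.H71.RD.wA Pool.Agent.H71.RD.w_not_unit Pool.Agent.H71.RD.P
    Pool.Agent.H71.RD.P_minimal 2 ⟨S, hS, hind⟩
  have hne : T.Nonempty := by
    rw [← Finset.card_pos]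
    omega
  obtain ⟨t, ht⟩ := hne
  have h1 := hT'.transcendental (⟨t, ht⟩, 0)
  apply h1
  change IsAlgebraic ℚ (Ideal.Quotient.mk Pool.Agent.H71.RD.P t)
  rw [Pool.Agent.H71.RD.quot_const]
  exact isAlgebraic_algebraMap _

end Pool.Agent.S01394
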