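import Pool.Statements.S07979
import Pool.Agent.H25.TL.Fin
import Pool.Agent.H37.TL.Dec
import Pool.Agent.H14.TL.N1M
import Pool.Agent.H14.TL.R2M
import Pool.Agent.H40.TL.R2E3

set_option autoImplicit false
open Pool Pool.MP_324c10_co

namespace Pool.Agent.S07979

/-- For every A in {0,1}^n of uniform measure p strictly between 0 and 1, with β_i the influence of coordinate i: either some β_i equals 1, or the sum of β_i/log₂(1/β_i) over i is at least 2p(1−p). -/
theorem result :
    ∀ (n : ℕ) (A : Finset (Fin n → Bool)),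
      0 < A.card → A.card < 2 ^ n →
      (∃ i : Fin n,
          ((Finset.univ.filter (fun (x : Fin n → Bool) =>
              ¬ (x ∈ A ↔ Function.update x i (!(x i)) ∈ A))).card : ℝ) / 2 ^ n = 1) ∨
      2 * ((A.card : ℝ) / 2 ^ n) * (1 - (A.card : ℝ) / 2 ^ n) ≤
        ∑ i : Fin n,
          (((Finset.univ.filter (fun (x : Fin n → Bool) =>
              ¬ (x ∈ A ↔ Function.update x i (!(x i)) ∈ A))).card : ℝ) / 2 ^ n) /
            Real.logb 2 (1 / (((Finset.univ.filter (fun (x : Fin n → Bool) =>
              ¬ (x ∈ A ↔ Function.update x i (!(x i)) ∈ A))).card : ℝ) / 2 ^ n)) := by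
  exact Pool.MP324.H25.S07979_of Pool.Agent.H37.TL.DEC_proved Pool.MP324.t_N1M Pool.MP324.t_R2M
    (fun m x hm => Pool.Agent.H40.TL.R2E_proved m x
      (lt_of_lt_of_le (Real.logb_pos (by norm_num) (by norm_num)) hm))

end Pool.Agent.S07979
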