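import Pool.Statements.S09687
import Pool.Agent.H68.TV.Field

set_option autoImplicit false
open Pool Pool.MP_7c9306_co

namespace Pool.Agent.S09687

/-- For every N there is a connected simple graph on at least N vertices whose vertex degrees take exactly three distinct values and whose adjacency matrix has exactly three distinct eigenvalues. -/
theorem result :
    ∀ N : ℕ, ∃ n : ℕ, N ≤ n ∧ ∃ G : SimpleGraph (Fin n), ∃ inst : DecidableRel G.Adj,
      G.Connected ∧
      (Finset.univ.image (fun v => G.degree v)).card = 3 ∧
      (G.adjMatrix ℝ).charpoly.roots.toFinset.card = 3 := by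
  exact Pool.Agent.H68.TV.main

end Pool.Agent.S09687
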