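import Pool.Statements.S12940
import Pool.Graph.R_pool_sql_team_668148b0.Helper320.GFinB

set_option autoImplicit false
open Pool Pool.MP_2afbe1_gt

namespace Pool.Agent.S12940

open Pool.Agent.Helper320.Gold Pool.Agent.Helper320.Gold.NFinB in
/-- a nearly optimal inscribed polyhedron with the facet condition is good -/
theorem good_of_large {S : Finset (EuclideanSpace ℝ (Fin 3))} (hu : ∀ x ∈ S, ‖x‖ = 1)
    (hs : ∀ (a : EuclideanSpace ℝ (Fin 3)) (c : ℝ) (T : Finset (EuclideanSpace ℝ (Fin 3))),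
      a ≠ 0 → T ⊆ S → (∀ x ∈ S, inner ℝ a x ≤ c) → (∀ x ∈ T, inner ℝ a x = c) → T.card ≤ 3)
    (hV : 2 * Real.pi / 3 <
      (MeasureTheory.volume (convexHull ℝ (S : Set (EuclideanSpace ℝ (Fin 3))))).toReal) :
    Good S := by
  refine ⟨hu, simp_of hs, ?_⟩
  intro a ha
  by_contra hcon
  push Not at hcon
  exact absurd (half_volume hu ha hcon) (not_le.2 hV)

/-- The negation of the preceding statement: For n ≥ 4, if some simplicial polyhedron with n vertices on the unit sphere has every valence between ⌊6−12/n⌋ and ⌈6−12/n⌉, then some such medial polyhedron has the largest volume among all n-vertex polyhedra inscribed in the sphere. -/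
theorem result :
    ¬ (∀ n : ℕ, 4 ≤ n →
      (∃ S : Finset (EuclideanSpace ℝ (Fin 3)), S.card = n ∧ (∀ x ∈ S, ‖x‖ = 1) ∧
        (∀ (a : EuclideanSpace ℝ (Fin 3)) (c : ℝ) (T : Finset (EuclideanSpace ℝ (Fin 3))),
          a ≠ 0 → T ⊆ S → (∀ x ∈ S, inner ℝ a x ≤ c) → (∀ x ∈ T, inner ℝ a x = c) → T.card ≤ 3) ∧
        (∀ v ∈ S,
          ⌊(6 : ℝ) - 12 / (n : ℝ)⌋ ≤
            ((Set.ncard {w : EuclideanSpace ℝ (Fin 3) | w ∈ S ∧ w ≠ v ∧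
              ∃ (a : EuclideanSpace ℝ (Fin 3)) (c : ℝ), (∀ x ∈ S, inner ℝ a x ≤ c) ∧
                ∀ x ∈ S, (inner ℝ a x = c ↔ (x = v ∨ x = w))} : ℕ) : ℤ) ∧
          ((Set.ncard {w : EuclideanSpace ℝ (Fin 3) | w ∈ S ∧ w ≠ v ∧
              ∃ (a : EuclideanSpace ℝ (Fin 3)) (c : ℝ), (∀ x ∈ S, inner ℝ a x ≤ c) ∧
                ∀ x ∈ S, (inner ℝ a x = c ↔ (x = v ∨ x = w))} : ℕ) : ℤ) ≤
            ⌈(6 : ℝ) - 12 / (n : ℝ)⌉)) →
      ∃ S : Finset (EuclideanSpace ℝ (Fin 3)), S.card = n ∧ (∀ x ∈ S, ‖x‖ = 1) ∧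
        (∀ (a : EuclideanSpace ℝ (Fin 3)) (c : ℝ) (T : Finset (EuclideanSpace ℝ (Fin 3))),
          a ≠ 0 → T ⊆ S → (∀ x ∈ S, inner ℝ a x ≤ c) → (∀ x ∈ T, inner ℝ a x = c) → T.card ≤ 3) ∧
        (∀ v ∈ S,
          ⌊(6 : ℝ) - 12 / (n : ℝ)⌋ ≤
            ((Set.ncard {w : EuclideanSpace ℝ (Fin 3) | w ∈ S ∧ w ≠ v ∧
              ∃ (a : EuclideanSpace ℝ (Fin 3)) (c : ℝ), (∀ x ∈ S, inner ℝ a x ≤ c) ∧
                ∀ x ∈ S, (inner ℝ a x = c ↔ (x = v ∨ x = w))} : ℕ) : ℤ) ∧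
          ((Set.ncard {w : EuclideanSpace ℝ (Fin 3) | w ∈ S ∧ w ≠ v ∧
              ∃ (a : EuclideanSpace ℝ (Fin 3)) (c : ℝ), (∀ x ∈ S, inner ℝ a x ≤ c) ∧
                ∀ x ∈ S, (inner ℝ a x = c ↔ (x = v ∨ x = w))} : ℕ) : ℤ) ≤
            ⌈(6 : ℝ) - 12 / (n : ℝ)⌉) ∧
        ∀ T : Finset (EuclideanSpace ℝ (Fin 3)), T.card = n → (∀ x ∈ T, ‖x‖ = 1) →
          MeasureTheory.volume (convexHull ℝ (T : Set (EuclideanSpace ℝ (Fin 3)))) ≤
            MeasureTheory.volume (convexHull ℝ (S : Set (EuclideanSpace ℝ (Fin 3))))) := by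
  intro H
  obtain ⟨C, hC, N1, hN1, hcomp⟩ := Pool.Agent.Helper320.Gold.NK5.competitor
  obtain ⟨N2, hno⟩ := Pool.Agent.Helper320.Gold.NCB.no_good_medial C hC
  -- choose `n = 10 m + 7` large
  obtain ⟨m, hm⟩ : ∃ m : ℕ, m = N1 + N2 + ⌈(1 + C) * 100⌉₊ + 100 := ⟨_, rfl⟩
  obtain ⟨n, hn⟩ : ∃ n : ℕ, n = 10 * m + 7 := ⟨_, rfl⟩
  have hm1 : 1 ≤ m := by omega
  have hn13 : 13 ≤ n := by omega
  have hn4 : 4 ≤ n := by omega
  have hnN1 : N1 ≤ n := by omega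
  have hnN2 : N2 ≤ n := by omega
  obtain ⟨hfl, hce⟩ := Pool.Agent.Helper320.Gold.NFinB.floor_ceil hn13
  have hex : (∃ S : Finset (EuclideanSpace ℝ (Fin 3)), S.card = n ∧ (∀ x ∈ S, ‖x‖ = 1) ∧
        (∀ (a : EuclideanSpace ℝ (Fin 3)) (c : ℝ) (T : Finset (EuclideanSpace ℝ (Fin 3))),
          a ≠ 0 → T ⊆ S → (∀ x ∈ S, inner ℝ a x ≤ c) → (∀ x ∈ T, inner ℝ a x = c) → T.card ≤ 3) ∧
        (∀ v ∈ S,
          ⌊(6 : ℝ) - 12 / (n : ℝ)⌋ ≤
            ((Set.ncard {w : EuclideanSpace ℝ (Fin 3) | w ∈ S ∧ w ≠ v ∧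
              ∃ (a : EuclideanSpace ℝ (Fin 3)) (c : ℝ), (∀ x ∈ S, inner ℝ a x ≤ c) ∧
                ∀ x ∈ S, (inner ℝ a x = c ↔ (x = v ∨ x = w))} : ℕ) : ℤ) ∧
          ((Set.ncard {w : EuclideanSpace ℝ (Fin 3) | w ∈ S ∧ w ≠ v ∧
              ∃ (a : EuclideanSpace ℝ (Fin 3)) (c : ℝ), (∀ x ∈ S, inner ℝ a x ≤ c) ∧
                ∀ x ∈ S, (inner ℝ a x = c ↔ (x = v ∨ x = w))} : ℕ) : ℤ) ≤
            ⌈(6 : ℝ) - 12 / (n : ℝ)⌉)) := by
    obtain ⟨S, hc, hG, hval⟩ := Pool.Agent.Helper320.Gold.NEX.exists_medial m hm1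
    refine ⟨S, by rw [hc, hn], hG.unit, Pool.Agent.Helper320.Gold.NFinB.of_simp hG, fun v hv => ?_⟩
    have h3 : 3 ≤ S.card := by omega
    have he := Pool.Agent.Helper320.Gold.NFinB.nbr_eq h3 hv
    unfold Pool.Agent.Helper320.Gold.NFinB.nbr at he
    rw [he, hfl, hce]
    rcases hval v hv with h | h <;> rw [h] <;> norm_num
  obtain ⟨S, hScard, hSu, hSs, hSval, hSmax⟩ := H n hn4 hex
  obtain ⟨Y, hYc, hYu, hYV⟩ := hcomp n hnN1
  have hfin : ∀ T : Finset (EuclideanSpace ℝ (Fin 3)),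
      MeasureTheory.volume (convexHull ℝ (T : Set (EuclideanSpace ℝ (Fin 3)))) ≠ ⊤ := fun T =>
    (Set.Finite.isCompact_convexHull ℝ T.finite_toSet).measure_lt_top.ne
  have hle : (MeasureTheory.volume (convexHull ℝ (Y : Set (EuclideanSpace ℝ (Fin 3))))).toReal ≤
      (MeasureTheory.volume (convexHull ℝ (S : Set (EuclideanSpace ℝ (Fin 3))))).toReal :=
    ENNReal.toReal_mono (hfin S) (hSmax Y hYc hYu)
  have hbig : 2 * Real.pi / 3 <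
      (MeasureTheory.volume (convexHull ℝ (S : Set (EuclideanSpace ℝ (Fin 3))))).toReal := by
    refine lt_of_lt_of_le ?_ (hYV.trans hle)
    have hnC : (1 + C) * 100 ≤ (n : ℝ) := by
      refine (Nat.le_ceil _).trans ?_
      exact_mod_cast (by omega : ⌈(1 + C) * 100⌉₊ ≤ n)
    have hn1 : (1 : ℝ) ≤ n := by exact_mod_cast (by omega : 1 ≤ n)
    have hn0 : (0 : ℝ) < n := by linarith
    have hp1 : (n : ℝ) ^ (-(1 / 4 : ℝ)) ≤ 1 :=
      Real.rpow_le_one_of_one_le_of_nonpos hn1 (by norm_num)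
    have h3 : (1 : ℝ) ≤ √3 := by
      rw [show (1 : ℝ) = √1 by simp]
      exact Real.sqrt_le_sqrt (by norm_num)
    have hpi := Real.pi_pos
    have hpi4 := Real.pi_lt_four
    have e1 : 4 * Real.pi ^ 2 / (√3 * n) * (1 + C * (n : ℝ) ^ (-(1 / 4 : ℝ))) ≤
        4 * Real.pi ^ 2 / n * (1 + C) := by
      gcongr
      · nlinarith
      · nlinarith
    have e2 : 4 * Real.pi ^ 2 / n * (1 + C) ≤ 4 * Real.pi ^ 2 / 100 := by
      rw [div_mul_eq_mul_div, div_le_div_iff₀ hn0 (by norm_num)]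
      nlinarith [sq_nonneg Real.pi]
    nlinarith
  have hG := good_of_large hSu hSs hbig
  refine hno n hnN2 S hG hScard (fun v hv => ?_) (hYV.trans hle)
  have h3 : 3 ≤ S.card := by omega
  have he := Pool.Agent.Helper320.Gold.NFinB.nbr_eq h3 hv
  unfold Pool.Agent.Helper320.Gold.NFinB.nbr at he
  obtain ⟨h1, h2⟩ := hSval v hv
  rw [he, hfl] at h1
  rw [he, hce] at h2
  have h1' : 5 ≤ {w | Pool.Agent.Helper320.Gold.Adj S v w}.ncard := by exact_mod_cast h1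
  have h2' : {w | Pool.Agent.Helper320.Gold.Adj S v w}.ncard ≤ 6 := by exact_mod_cast h2
  omega

end Pool.Agent.S12940
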