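import Pool.Statements.S15411
import Pool.Graph.R_pool_sql_team_668148b0.Helper578.OG.Final

set_option autoImplicit false
open Pool Pool.MP_d483bb_lc

namespace Pool.Agent.S15411

/-- Every computable torsion-free abelian group of infinite rank has a computable copy with a computable order, and with an order below some degree X such that no order on that copy has exactly the Turing degree of X. -/
theorem result :
    ∀ (H : Type) [AddCommGroup H],
      (∀ (n : ℕ) (x : H), n ≠ 0 → n • x = 0 → x = 0) →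
      Cardinal.aleph0 ≤ Module.rank ℤ H →
      (∃ ν : ℕ ≃ H, Computable₂ (fun a b : ℕ => ν.symm (ν a + ν b))) →
      ∃ μ : ℕ ≃ H, Computable₂ (fun a b : ℕ => μ.symm (μ a + μ b)) ∧
        (∃ P : Set H,
          (∀ a ∈ P, ∀ b ∈ P, a + b ∈ P) ∧ (∀ a : H, a ∈ P → -a ∈ P → a = 0) ∧
            (∀ a : H, a ∈ P ∨ -a ∈ P) ∧
            Computable (Set.indicator (μ ⁻¹' P) (fun _ => (1 : ℕ)) : ℕ → ℕ)) ∧
        ∃ P : Set H,
          (∀ a ∈ P, ∀ b ∈ P, a + b ∈ P) ∧ (∀ a : H, a ∈ P → -a ∈ P → a = 0) ∧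
            (∀ a : H, a ∈ P ∨ -a ∈ P) ∧
            ∃ X : ℕ → ℕ,
              TuringReducible
                ((Set.indicator (μ ⁻¹' P) (fun _ => (1 : ℕ)) : ℕ → ℕ) : ℕ →. ℕ)
                ((X : ℕ → ℕ) : ℕ →. ℕ) ∧
              ∀ Q : Set H,
                (∀ a ∈ Q, ∀ b ∈ Q, a + b ∈ Q) →
                (∀ a : H, a ∈ Q → -a ∈ Q → a = 0) →
                (∀ a : H, a ∈ Q ∨ -a ∈ Q) →
                ¬ (TuringReducible
                      ((Set.indicator (μ ⁻¹' Q) (fun _ => (1 : ℕ)) : ℕ → ℕ) : ℕ →. ℕ)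
                      ((X : ℕ → ℕ) : ℕ →. ℕ) ∧
                    TuringReducible ((X : ℕ → ℕ) : ℕ →. ℕ)
                      ((Set.indicator (μ ⁻¹' Q) (fun _ => (1 : ℕ)) : ℕ → ℕ) : ℕ →. ℕ)) := by
  intro H _ htf hr ⟨ν, hν⟩
  obtain ⟨μ, hμ, P, hP1, hP2, hP3, hPc, honly⟩ :=
    Pool.Agent.Helper578.OG.main htf hr ν hν
  exact ⟨μ, hμ, Pool.Agent.Helper578.OG.final_part μ hμ P hP1 hP2 hP3 hPc honly⟩

end Pool.Agent.S15411
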